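import Pool.Agent.H97.NF.Targets

/-! Module CNT of the nf board (helper97). -/

namespace Pool.Agent.H33.NF

open Pool.Agent.H97.NF Pool.Agent.H99.NS

theorem card_le_of_diff (S : Finset ℤ) (D : ℝ) (hD : 0 ≤ D)
    (h : ∀ s ∈ S, ∀ t ∈ S, ((s - t : ℤ) : ℝ) ≤ D) : (S.card : ℝ) ≤ D + 1 := by
  rcases S.eq_empty_or_nonempty with hS | hS
  · subst hS
    simp
    linarith
  · have hsub : S ⊆ Finset.Icc (S.min' hS) (S.min' hS + ⌊D⌋) := by
      intro s hs
      rw [Finset.mem_Icc]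
      refine ⟨S.min'_le s hs, ?_⟩
      have h1 := h s hs (S.min' hS) (S.min'_mem hS)
      have h2 : s - S.min' hS ≤ ⌊D⌋ := Int.le_floor.mpr h1
      linarith
    have h1 := Finset.card_le_card hsub
    rw [Int.card_Icc] at h1
    have h2 : (0 : ℤ) ≤ ⌊D⌋ := Int.floor_nonneg.mpr hD
    have h3 : ((S.card : ℤ)) ≤ ⌊D⌋ + 1 := by
      have : ((S.min' hS + ⌊D⌋ + 1 - S.min' hS).toNat : ℤ) = ⌊D⌋ + 1 := by
        rw [Int.toNat_of_nonneg (by linarith)]
        ring
      calc (S.card : ℤ) ≤ ((S.min' hS + ⌊D⌋ + 1 - S.min' hS).toNat : ℤ) := by exact_mod_cast h1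
        _ = _ := this
    have h4 : (S.card : ℝ) ≤ (⌊D⌋ : ℝ) + 1 := by exact_mod_cast h3
    have h5 := Int.floor_le D
    linarith

theorem pf_CNT : T_CNT := by
  refine ⟨?_, ?_⟩
  · intro a _ x
    have hN : (0 : ℤ) < 64 ^ a := by positivity
    have hM : (0 : ℤ) < 16 ^ a := by positivity
    refine ⟨(-((64 ^ a - 2 * x.1) / (2 * 64 ^ a)), (2 * x.2 + 16 ^ a) / (2 * 16 ^ a)), ?_⟩
    unfold tile
    simp only [Set.mem_ofPred_eq]
    set N : ℤ := 64 ^ a
    set M : ℤ := 16 ^ a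
    have h1 := Int.mul_ediv_self_le (x := N - 2 * x.1) (k := 2 * N) (by linarith)
    have h2 := Int.lt_mul_ediv_self_add (x := N - 2 * x.1) (k := 2 * N) (by linarith)
    have h3 := Int.mul_ediv_self_le (x := 2 * x.2 + M) (k := 2 * M) (by linarith)
    have h4 := Int.lt_mul_ediv_self_add (x := 2 * x.2 + M) (k := 2 * M) (by linarith)
    set f := (N - 2 * x.1) / (2 * N)
    set g := (2 * x.2 + M) / (2 * M)
    refine ⟨?_, ?_, ?_, ?_⟩ <;> nlinarith
  · intro A' hA a k hak x Z hZ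
    obtain ⟨m, rfl⟩ := Nat.exists_eq_add_of_le hak
    have hsub : Z ⊆ (Z.image Prod.fst) ×ˢ (Z.image Prod.snd) := by
      intro z hz
      rw [Finset.mem_product]
      exact ⟨Finset.mem_image_of_mem _ hz, Finset.mem_image_of_mem _ hz⟩
    have hcard : (Z.card : ℝ) ≤ ((Z.image Prod.fst).card : ℝ) * ((Z.image Prod.snd).card : ℝ) := by
      have := Finset.card_le_card hsub
      rw [Finset.card_product] at this
      exact_mod_cast this
    have hN : (0 : ℝ) < 64 ^ a := by positivity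
    have hM : (0 : ℝ) < 16 ^ a := by positivity
    have hA64 : (1 : ℝ) ≤ 64 ^ m := one_le_pow₀ (by norm_num)
    have hA16 : (1 : ℝ) ≤ 16 ^ m := one_le_pow₀ (by norm_num)
    have c1 : ((Z.image Prod.fst).card : ℝ) ≤ 64 ^ m + 1 := by
      apply card_le_of_diff _ _ (by positivity)
      intro s hs t ht
      rw [Finset.mem_image] at hs ht
      obtain ⟨z, hz, rfl⟩ := hs
      obtain ⟨w, hw, rfl⟩ := ht
      have e1 := (hZ z hz).1
      have e2 := (hZ w hw).1
      have e3 : (2 : ℝ) * |(x.1 : ℝ) - 64 ^ a * z.1| ≤ 64 ^ (a + m) := by exact_mod_cast e1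
      have e4 : (2 : ℝ) * |(x.1 : ℝ) - 64 ^ a * w.1| ≤ 64 ^ (a + m) := by exact_mod_cast e2
      have e5 := abs_le.mp (show |(x.1 : ℝ) - 64 ^ a * z.1| ≤ 64 ^ (a + m) / 2 by linarith)
      have e6 := abs_le.mp (show |(x.1 : ℝ) - 64 ^ a * w.1| ≤ 64 ^ (a + m) / 2 by linarith)
      have e7 : (64 : ℝ) ^ a * ((z.1 : ℝ) - w.1) ≤ 64 ^ a * 64 ^ m := by
        rw [← pow_add]; linarith [e5.1, e6.2]
      have e8 := le_of_mul_le_mul_left e7 hN
      push_cast
      exact e8
    have c2 : ((Z.image Prod.snd).card : ℝ) ≤ 2 * A' * 16 ^ m + 1 := by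
      apply card_le_of_diff _ _ (by positivity)
      intro s hs t ht
      rw [Finset.mem_image] at hs ht
      obtain ⟨z, hz, rfl⟩ := hs
      obtain ⟨w, hw, rfl⟩ := ht
      have e1 := (hZ z hz).2
      have e2 := (hZ w hw).2
      push_cast at e1 e2
      have e5 := abs_le.mp e1
      have e6 := abs_le.mp e2
      have e7 : (16 : ℝ) ^ a * ((z.2 : ℝ) - w.2) ≤ 16 ^ a * (2 * A' * 16 ^ m) := by
        have : (16 : ℝ) ^ a * (2 * A' * 16 ^ m) = 2 * (A' * 16 ^ (a + m)) := by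
          rw [pow_add]; ring
        rw [this]; linarith [e5.1, e6.2]
      have e8 := le_of_mul_le_mul_left e7 hM
      push_cast
      exact e8
    have hk : a + m - a = m := by omega
    rw [hk]
    have h1024 : (1024 : ℝ) ^ m = 64 ^ m * 16 ^ m := by
      rw [← mul_pow]; norm_num
    rw [h1024]
    calc (Z.card : ℝ) ≤ _ := hcard
      _ ≤ (64 ^ m + 1) * (2 * A' * 16 ^ m + 1) := by
        apply mul_le_mul c1 c2 (by positivity) (by positivity)
      _ ≤ (2 * 64 ^ m) * (3 * A' * 16 ^ m) := by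
        apply mul_le_mul
        · linarith
        · have : 1 ≤ A' * 16 ^ m := by nlinarith
          linarith
        · positivity
        · positivity
      _ = _ := by ring

end Pool.Agent.H33.NF
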